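import Pool.Agent.helper387_fk.PInv

/-!
For the spider with edges 12, 13, 14, 15, 26 on six points and its complement the multiplication map
of the two subalgebras of the Fomin-Kirillov algebra is not injective.
-/

namespace Pool.Agent.Results.MP_9e57f8_al.SpiderKernel

open H387FK
open scoped TensorProduct

attribute [local irreducible] H387FK.instRing H387FK.instAlg

/-- The spider with edges 12, 13, 14, 15, 26 (the vertex `k` is `k - 1` here). -/
def spider : SimpleGraph (Fin 6) :=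
  SimpleGraph.fromEdgeSet {s(0, 1), s(0, 2), s(0, 3), s(0, 4), s(1, 5)}

theorem evp_mem (G : SimpleGraph (Fin 6)) (p : List (Bool × List H387C.L))
    (h : ∀ t ∈ p, ∀ l ∈ t.2, G.Adj (H387C.v1 l) (H387C.v2 l)) : H387C.evp p ∈ EG G := by
  have hw : ∀ u : List H387C.L, (∀ l ∈ u, G.Adj (H387C.v1 l) (H387C.v2 l)) →
      H387C.evw u ∈ EG G := by
    intro u
    induction u with
    | nil => intro _; exact Subalgebra.one_mem _
    | cons l u ih =>
      intro hu
      rw [H387C.evw]
      exact Subalgebra.mul_mem _ (Algebra.subset_adjoin ⟨_, _, hu l (by simp), rfl⟩)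
        (ih fun m hm => hu m (by simp [hm]))
  induction p with
  | nil => exact Subalgebra.zero_mem _
  | cons t p ih =>
    obtain ⟨s, u⟩ := t
    rw [H387C.evp]
    exact Subalgebra.add_mem _ (Subalgebra.smul_mem _ (hw u (h (s, u) (by simp))) _)
      (ih fun t ht => h t (by simp [ht]))

/-- The first relabelling. -/
def rho : Equiv.Perm (Fin 6) :=
  ⟨![1, 2, 3, 4, 5, 0], ![5, 0, 1, 2, 3, 4], by decide, by decide⟩

/-- The second relabelling. -/
def tau : Equiv.Perm (Fin 6) :=
  ⟨![5, 1, 3, 4, 0, 2], ![4, 1, 5, 2, 3, 0], by decide, by decide⟩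

theorem letters1 : ∀ t ∈ H387E.mapP rho H387E.P0, ∀ l ∈ t.2,
    l ∈ [H387C.L.a12, H387C.L.a13, H387C.L.a14, H387C.L.a15, H387C.L.a26] := by
  decide +kernel

theorem letters2 : ∀ t ∈ H387E.mapP tau H387E.P0, ∀ l ∈ t.2,
    l ∈ [H387C.L.a16, H387C.L.a23, H387C.L.a34, H387C.L.a35, H387C.L.a36] := by
  decide +kernel

theorem mem1 : H387E.P ∈ EG spider := by
  rw [← H387E.act_P rho]
  unfold H387E.P
  rw [H387E.act_evp]
  refine evp_mem spider _ fun t ht l hl => ?_
  have h := letters1 t ht l hl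
  simp only [List.mem_cons, List.not_mem_nil, or_false] at h
  rcases h with rfl | rfl | rfl | rfl | rfl <;> simp [spider, H387C.v1, H387C.v2]

theorem mem2 : H387E.P ∈ EG spiderᶜ := by
  rw [← H387E.act_P tau]
  unfold H387E.P
  rw [H387E.act_evp]
  refine evp_mem spiderᶜ _ fun t ht l hl => ?_
  have h := letters2 t ht l hl
  simp only [List.mem_cons, List.not_mem_nil, or_false] at h
  rcases h with rfl | rfl | rfl | rfl | rfl <;>
    simp [spider, H387C.v1, H387C.v2, SimpleGraph.compl_adj]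

theorem phi_P : Phi mixed_CC H387E.P ≠ 0 := by
  rw [H387E.P_eq]
  exact H387G.M2.good.dat.P_ne

/-- The multiplication map `E_G₁ ⊗ E_G₂ → E_6`, `a ⊗ b ↦ a b`, for the spider `G₁` and its complement
`G₂` is not injective: the subalgebras are not linearly disjoint. -/
theorem result : ¬ (EG spider).LinearDisjoint (EG spiderᶜ) := by
  intro hd
  have hinj := hd.injective
  let A : Submodule ℚ (FK 6) := Subalgebra.toSubmodule (EG spider)
  let C : Submodule ℚ (FK 6) := Subalgebra.toSubmodule (EG spiderᶜ)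
  have hA : (1 : FK 6) ∈ A := Subalgebra.one_mem _
  have hC : (1 : FK 6) ∈ C := Subalgebra.one_mem _
  have h : (⟨H387E.P, mem1⟩ : A) ⊗ₜ[ℚ] (⟨1, hC⟩ : C) = (⟨1, hA⟩ : A) ⊗ₜ[ℚ] (⟨H387E.P, mem2⟩ : C) := by
    apply hinj
    rw [Submodule.mulMap_tmul, Submodule.mulMap_tmul]
    show H387E.P * 1 = 1 * H387E.P
    rw [mul_one, one_mul]
  let φ : A →ₗ[ℚ] ℚ := (Phi mixed_CC).comp A.subtype
  let ψ : C →ₗ[ℚ] ℚ := eps.toLinearMap.comp C.subtype
  have h2 := congrArg (TensorProduct.lift ((LinearMap.mul ℚ ℚ).compl₁₂ φ ψ)) h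
  rw [TensorProduct.lift.tmul, TensorProduct.lift.tmul] at h2
  have h3 : Phi mixed_CC H387E.P * eps (1 : FK 6) = Phi mixed_CC (1 : FK 6) * eps H387E.P := h2
  rw [map_one, Phi_one mixed_CC, zero_mul, mul_one] at h3
  exact phi_P h3

end Pool.Agent.Results.MP_9e57f8_al.SpiderKernel
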